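import Pool.Agent.Results.MP_3fce03_co.TwoNMinusLog

/-!
# Convexly independent subsets of `A + A`: the lower bound `2 n - k` for `n ≤ 2^(k-1) (2^k - 1)`

A small chain `P` of `m = 2^k - 1` points, for which `P + P` contains `2 m - k` points in convex
position, and opposite to it an arc `Q` of single points, one for each direction of the chords of
`P`: the point of `Q` at which the tangent has the slope of the chord `P_i P_j` gives the two sums
with `P_i` and `P_j`.
-/

set_option autoImplicit false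

open Finset Filter Topology

namespace Pool.Agent.Results.MP_3fce03_co.ClusterArcH67

open Pool.Agent.Results.MP_3fce03_co.TwoNMinusLog

/-- exposed points: cardinality and convex independence -/
lemma of_exposed {ι : Type} (I : Finset ι) (p : ι → Plane)
    (h : ∀ i ∈ I, ∃ α β : ℝ, ∀ j ∈ I, j ≠ i →
      α * (p i).1 + β * (p i).2 < α * (p j).1 + β * (p j).2) :
    (I.image p).card = I.card ∧ ConvexlyIndependent (I.image p) := by
  constructor
  · apply Finset.card_image_of_injOn
    intro i hi j hj hij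
    by_contra hne
    obtain ⟨α, β, hαβ⟩ := h i hi
    have := hαβ j hj (Ne.symm hne)
    rw [hij] at this
    exact lt_irrefl _ this
  · intro x hx hmem
    rw [Finset.mem_image] at hx
    obtain ⟨i, hi, rfl⟩ := hx
    obtain ⟨α, β, hαβ⟩ := h i hi
    have hlin : IsLinearMap ℝ (fun z : Plane => α * z.1 + β * z.2) :=
      ⟨fun z w => by simp only [Prod.fst_add, Prod.snd_add]; ring,
       fun c z => by simp only [Prod.smul_fst, Prod.smul_snd, smul_eq_mul]; ring⟩
    have hconv := convex_halfSpace_gt hlin (α * (p i).1 + β * (p i).2)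
    have hsub : (((I.image p : Finset Plane) : Set Plane) \ {p i}) ⊆
        {z : Plane | α * (p i).1 + β * (p i).2 < α * z.1 + β * z.2} := by
      rintro z ⟨hz, hne⟩
      rw [Finset.mem_coe, Finset.mem_image] at hz
      obtain ⟨j, hj, rfl⟩ := hz
      exact hαβ j hj (fun h => hne (by rw [h]; rfl))
    have h1 : α * (p i).1 + β * (p i).2 < α * (p i).1 + β * (p i).2 :=
      convexHull_min hsub hconv hmem
    exact lt_irrefl _ h1

lemma ev_pos {A B : ℝ} (hA : 0 < A) : ∀ᶠ δ in 𝓝[>] (0 : ℝ), 0 < A + δ * B := by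
  have h : Tendsto (fun δ : ℝ => A + δ * B) (𝓝 0) (𝓝 (A + 0 * B)) :=
    (continuous_const.add (continuous_id.mul continuous_const)).tendsto 0
  have := h.eventually (lt_mem_nhds (show (0 : ℝ) < A + 0 * B by simpa using hA))
  exact this.filter_mono nhdsWithin_le_nhds

lemma ev_ne {A B : ℝ} (hB : B ≠ 0) : ∀ᶠ θ in 𝓝[>] (0 : ℝ), A + θ * B ≠ 0 := by
  rcases lt_trichotomy A 0 with hA | hA | hA
  · filter_upwards [ev_pos (A := -A) (B := -B) (by linarith)] with θ hθ h
    linarith
  · filter_upwards [self_mem_nhdsWithin] with θ hθ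
    rw [hA, zero_add]
    exact mul_ne_zero (ne_of_gt hθ) hB
  · filter_upwards [ev_pos (B := B) hA] with θ hθ
    exact hθ.ne'

/-- the indices of the chords: `⟨j, i⟩` with `i < j < m` -/
def chords (m : ℕ) : Finset (Σ _ : ℕ, ℕ) := (range m).sigma fun j => range j

lemma mem_chords {m : ℕ} {e : Σ _ : ℕ, ℕ} : e ∈ chords m ↔ e.1 < m ∧ e.2 < e.1 := by
  unfold chords
  rw [Finset.mem_sigma, Finset.mem_range, Finset.mem_range]

lemma card_chords (m : ℕ) : (chords m).card * 2 = m * (m - 1) := by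
  unfold chords
  rw [Finset.card_sigma]
  simp only [Finset.card_range]
  exact Finset.sum_range_id_mul_two m

/-- the coordinate functionals -/
def pr (n : ℕ) : Module.Dual ℝ (ℕ → ℝ) := LinearMap.proj n

lemma pr_apply (n : ℕ) (v : ℕ → ℝ) : pr n v = v n := rfl

/-- a direction in general position -/
lemma exists_gen (m : ℕ) (x : ℕ → ℝ) (hx : ∀ i j, i < j → j < m → x i < x j) :
    ∃ v : ℕ → ℝ, ∀ e ∈ chords m, ∀ f ∈ chords m, e ≠ f →
      (v e.1 - v e.2) * (x f.1 - x f.2) - (v f.1 - v f.2) * (x e.1 - x e.2) ≠ 0 := by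
  classical
  let ι := {z : (Σ _ : ℕ, ℕ) × (Σ _ : ℕ, ℕ) // z ∈ (chords m ×ˢ chords m) ∧ z.1 ≠ z.2}
  have hfin : Finite ι := by
    refine Finite.of_injective (β := {z // z ∈ (chords m ×ˢ chords m)})
      (fun z => ⟨z.1, z.2.1⟩) ?_
    intro z z' h
    apply Subtype.ext
    simpa using h
  let F : ι → Module.Dual ℝ (ℕ → ℝ) := fun z =>
    (x z.1.2.1 - x z.1.2.2) • (pr z.1.1.1 - pr z.1.1.2) -
      (x z.1.1.1 - x z.1.1.2) • (pr z.1.2.1 - pr z.1.2.2)
  obtain ⟨v, hv⟩ := Module.Dual.exists_forall_ne_zero_of_forall_exists F (by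
    rintro ⟨⟨⟨j, i⟩, ⟨l, k⟩⟩, h1, h2⟩
    rw [Finset.mem_product, mem_chords, mem_chords] at h1
    obtain ⟨⟨h3, h4⟩, h5, h6⟩ := h1
    simp only at h3 h4 h5 h6 h2
    have x1 := hx i j h4 h3
    have x2 := hx k l h6 h5
    by_cases c1 : i ≠ k ∧ i ≠ l
    · refine ⟨Pi.single i 1, ?_⟩
      have e1 : (Pi.single i 1 : ℕ → ℝ) j = 0 := Pi.single_eq_of_ne (by omega) _
      have e2 : (Pi.single i 1 : ℕ → ℝ) k = 0 := Pi.single_eq_of_ne c1.1.symm _
      have e3 : (Pi.single i 1 : ℕ → ℝ) l = 0 := Pi.single_eq_of_ne c1.2.symm _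
      simp [F, pr_apply, e1, e2, e3]
      intro h
      linarith
    · by_cases c2 : j ≠ k ∧ j ≠ l
      · refine ⟨Pi.single j 1, ?_⟩
        have e1 : (Pi.single j 1 : ℕ → ℝ) i = 0 := Pi.single_eq_of_ne (by omega) _
        have e2 : (Pi.single j 1 : ℕ → ℝ) k = 0 := Pi.single_eq_of_ne c2.1.symm _
        have e3 : (Pi.single j 1 : ℕ → ℝ) l = 0 := Pi.single_eq_of_ne c2.2.symm _
        simp [F, pr_apply, e1, e2, e3]
        intro h
        linarith
      · exfalso
        apply h2
        have : i = k ∧ j = l := by omega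
        rw [this.1, this.2])
  refine ⟨v, fun e he f hf hef => ?_⟩
  have h1 := hv ⟨(e, f), Finset.mem_product.2 ⟨he, hf⟩, hef⟩
  intro h2
  apply h1
  simp only [F, LinearMap.sub_apply, LinearMap.smul_apply, pr_apply, smul_eq_mul]
  linarith

/-- points `(x i, y i)`, `i < m`, in general position and sums of the pairs `(I j, I' j)`,
`j < N`, all exposed -/
structure Gen (m N : ℕ) (x y : ℕ → ℝ) (I I' : ℕ → ℕ) (t u : ℕ → ℝ) : Prop where
  hx : ∀ i j, i < j → j < m → x i < x j
  hI : ∀ j < N, I j < m ∧ I' j < m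
  hA : ∀ i < m, ∀ j < m, j ≠ i → y i - t i * x i < y j - t i * x j
  hX : ∀ i < N, ∀ j < N, j ≠ i → (y (I i) + y (I' i)) - u i * (x (I i) + x (I' i)) <
    (y (I j) + y (I' j)) - u i * (x (I j) + x (I' j))
  hD : ∀ e ∈ chords m, ∀ f ∈ chords m, e ≠ f →
    (y e.1 - y e.2) * (x f.1 - x f.2) - (y f.1 - y f.2) * (x e.1 - x e.2) ≠ 0

lemma exists_Gen {β : ℝ} {m N : ℕ} (h : Conf β m N) :
    ∃ x y I I' t u, Gen m N x y I I' t u := by
  obtain ⟨a, q, σ, τ, ha, hq, -, hmem⟩ := h
  have ht' : ∀ i, ∃ t : ℝ, i < m → ∀ j < m, j ≠ i →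
      (a i).2 - t * (a i).1 < (a j).2 - t * (a j).1 := by
    intro i
    by_cases hi : i < m
    · obtain ⟨t, ht⟩ := ha.exposed hi
      exact ⟨t, fun _ => ht⟩
    · exact ⟨0, fun h => absurd h hi⟩
  have hu' : ∀ i, ∃ t : ℝ, i < N → ∀ j < N, j ≠ i →
      (q i).2 - t * (q i).1 < (q j).2 - t * (q j).1 := by
    intro i
    by_cases hi : i < N
    · obtain ⟨t, ht⟩ := hq.exposed hi
      exact ⟨t, fun _ => ht⟩
    · exact ⟨0, fun h => absurd h hi⟩
  have hI' : ∀ j, ∃ i i' : ℕ, j < N → i < m ∧ i' < m ∧ q j = a i + a i' := by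
    intro j
    by_cases hj : j < N
    · obtain ⟨i, hi, i', hi', h⟩ := hmem j hj
      exact ⟨i, i', fun _ => ⟨hi, hi', h⟩⟩
    · exact ⟨0, 0, fun h => absurd h hj⟩
  choose t ht using ht'
  choose u hu using hu'
  choose I I' hI using hI'
  have hx : ∀ i j, i < j → j < m → (a i).1 < (a j).1 := fun i j hij hj => (ha.global hij hj).1
  obtain ⟨v, hv⟩ := exists_gen m (fun i => (a i).1) hx
  have E1 : ∀ᶠ θ in 𝓝[>] (0 : ℝ), ∀ i ∈ range m, ∀ j ∈ range m, j ≠ i →
      0 < ((a j).2 - t i * (a j).1 - ((a i).2 - t i * (a i).1)) + θ * (v j - v i) := by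
    refine (eventually_all_finset _).2 fun i hi => (eventually_all_finset _).2 fun j hj => ?_
    rw [Finset.mem_range] at hi hj
    by_cases hne : j = i
    · exact Eventually.of_forall fun θ h => absurd hne h
    · have h1 := ht i hi j hj hne
      filter_upwards [ev_pos (B := v j - v i) (sub_pos.2 h1)] with θ hθ _
      exact hθ
  have E2 : ∀ᶠ θ in 𝓝[>] (0 : ℝ), ∀ i ∈ range N, ∀ j ∈ range N, j ≠ i →
      0 < ((q j).2 - u i * (q j).1 - ((q i).2 - u i * (q i).1)) +
        θ * (v (I j) + v (I' j) - (v (I i) + v (I' i))) := by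
    refine (eventually_all_finset _).2 fun i hi => (eventually_all_finset _).2 fun j hj => ?_
    rw [Finset.mem_range] at hi hj
    by_cases hne : j = i
    · exact Eventually.of_forall fun θ h => absurd hne h
    · have h1 := hu i hi j hj hne
      filter_upwards [ev_pos (B := v (I j) + v (I' j) - (v (I i) + v (I' i))) (sub_pos.2 h1)]
        with θ hθ _
      exact hθ
  have E3 : ∀ᶠ θ in 𝓝[>] (0 : ℝ), ∀ e ∈ chords m, ∀ f ∈ chords m, e ≠ f →
      (((a e.1).2 - (a e.2).2) * ((a f.1).1 - (a f.2).1) -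
        ((a f.1).2 - (a f.2).2) * ((a e.1).1 - (a e.2).1)) +
      θ * ((v e.1 - v e.2) * ((a f.1).1 - (a f.2).1) -
        (v f.1 - v f.2) * ((a e.1).1 - (a e.2).1)) ≠ 0 := by
    refine (eventually_all_finset _).2 fun e he => (eventually_all_finset _).2 fun f hf => ?_
    by_cases hne : e = f
    · exact Eventually.of_forall fun θ h => absurd hne h
    · filter_upwards [ev_ne (A := ((a e.1).2 - (a e.2).2) * ((a f.1).1 - (a f.2).1) -
        ((a f.1).2 - (a f.2).2) * ((a e.1).1 - (a e.2).1)) (hv e he f hf hne)] with θ hθ _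
      exact hθ
  obtain ⟨θ, h1, h2, h3⟩ := (E1.and (E2.and E3)).exists
  refine ⟨fun i => (a i).1, fun i => (a i).2 + θ * v i, I, I', t, u, hx,
    fun j hj => ⟨(hI j hj).1, (hI j hj).2.1⟩, ?_, ?_, ?_⟩
  · intro i hi j hj hne
    have := h1 i (Finset.mem_range.2 hi) j (Finset.mem_range.2 hj) hne
    linarith
  · intro i hi j hj hne
    have := h2 i (Finset.mem_range.2 hi) j (Finset.mem_range.2 hj) hne
    rw [(hI i hi).2.2, (hI j hj).2.2] at this
    simp only [Prod.fst_add, Prod.snd_add] at this ⊢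
    linarith
  · intro e he f hf hne
    have := h3 e he f hf hne
    intro h
    apply this
    rw [← h]
    ring

lemma construct {m N M : ℕ} {x y : ℕ → ℝ} {I I' : ℕ → ℕ} {t u : ℕ → ℝ}
    (h : Gen m N x y I I' t u) (hM : M ≤ (chords m).card) :
    ∃ A X : Finset Plane, A.card = m + M ∧ ConvexlyIndependent A ∧ ConvexlyIndependent X ∧
      (∀ z ∈ X, ∃ a ∈ A, ∃ b ∈ A, z = a + b) ∧ X.card = N + 2 * M := by
  obtain ⟨S, hS, hSc⟩ := Finset.exists_subset_card_eq hM
  obtain ⟨s, hs⟩ : ∃ s : (Σ _ : ℕ, ℕ) → ℝ, ∀ e, s e = (y e.1 - y e.2) / (x e.1 - x e.2) :=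
    ⟨_, fun _ => rfl⟩
  have hlt : ∀ e ∈ S, e.1 < m ∧ e.2 < e.1 := fun e he => mem_chords.1 (hS he)
  have hx : ∀ e ∈ S, 0 < x e.1 - x e.2 := fun e he =>
    sub_pos.2 (h.hx e.2 e.1 (hlt e he).2 (hlt e he).1)
  have hsy : ∀ e ∈ S, s e * (x e.1 - x e.2) = y e.1 - y e.2 := fun e he => by
    rw [hs, div_mul_cancel₀ _ (hx e he).ne']
  have hsne : ∀ e ∈ S, ∀ f ∈ S, f ≠ e → s f - s e ≠ 0 := by
    intro e he f hf hne h0
    apply h.hD f (hS hf) e (hS he) hne
    rw [← hsy e he, ← hsy f hf, sub_eq_zero.1 h0]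
    ring
  -- `δ`
  have E1 : ∀ᶠ δ in 𝓝[>] (0 : ℝ), ∀ e ∈ S, ∀ f ∈ S, f ≠ e →
      0 < (s f - s e) ^ 2 / 2 + δ * (s f - s e) ∧
      0 < (s f - s e) ^ 2 / 2 + δ * -(s f - s e) := by
    refine (eventually_all_finset _).2 fun e he => (eventually_all_finset _).2 fun f hf => ?_
    by_cases hne : f = e
    · exact Eventually.of_forall fun θ h => absurd hne h
    · have h1 : 0 < (s f - s e) ^ 2 / 2 := by
        have := hsne e he f hf hne
        positivity
      filter_upwards [ev_pos (B := s f - s e) h1, ev_pos (B := -(s f - s e)) h1] with δ h2 h3 _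
      exact ⟨h2, h3⟩
  obtain ⟨δ, hδ, hδ0⟩ := (E1.and self_mem_nhdsWithin).exists
  replace hδ0 : 0 < δ := hδ0
  -- `ε`
  have E2 : ∀ᶠ ε in 𝓝[>] (0 : ℝ), ∀ e ∈ S, ∀ f ∈ S, ∀ i ∈ range m, ∀ j ∈ range m, f ≠ e →
      0 < ((s f - s e) ^ 2 / 2 + δ * (s f - s e)) +
        ε * (((s e - δ) * x j - y j) - ((s e - δ) * x i - y i)) ∧
      0 < ((s f - s e) ^ 2 / 2 + δ * -(s f - s e)) +
        ε * (((s e + δ) * x j - y j) - ((s e + δ) * x i - y i)) := by
    refine (eventually_all_finset _).2 fun e he => (eventually_all_finset _).2 fun f hf =>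
      (eventually_all_finset _).2 fun i _ => (eventually_all_finset _).2 fun j _ => ?_
    by_cases hne : f = e
    · exact Eventually.of_forall fun θ h => absurd hne h
    · obtain ⟨h1, h2⟩ := hδ e he f hf hne
      filter_upwards [ev_pos (B := ((s e - δ) * x j - y j) - ((s e - δ) * x i - y i)) h1,
        ev_pos (B := ((s e + δ) * x j - y j) - ((s e + δ) * x i - y i)) h2] with ε h3 h4 _
      exact ⟨h3, h4⟩
  obtain ⟨ε, hε, hε0⟩ := (E2.and self_mem_nhdsWithin).exists
  replace hε0 : 0 < ε := hε0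
  -- `C`
  have E3 : ∀ᶠ C in (atTop : Filter ℝ), ∀ e ∈ S, ∀ i ∈ range m,
      s e ^ 2 / 2 - t i * s e + ε * (y i - t i * x i) < C ∧
      -(s e ^ 2 / 2) - ε * (s e * x i - y i) < C := by
    refine (eventually_all_finset _).2 fun e he => (eventually_all_finset _).2 fun i _ => ?_
    exact (eventually_gt_atTop _).and (eventually_gt_atTop _)
  have E4 : ∀ᶠ C in (atTop : Filter ℝ), ∀ e ∈ S, ∀ i ∈ range m, ∀ j ∈ range N,
      s e ^ 2 / 2 - u j * s e + ε * ((y (I j) + y (I' j)) - u j * (x (I j) + x (I' j))) -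
        ε * (y i - u j * x i) < C ∧
      -(s e - δ) * s e + s e ^ 2 / 2 + ε * ((s e - δ) * x i - y i) -
        ε * ((s e - δ) * (x (I j) + x (I' j)) - (y (I j) + y (I' j))) < C ∧
      -(s e + δ) * s e + s e ^ 2 / 2 + ε * ((s e + δ) * x i - y i) -
        ε * ((s e + δ) * (x (I j) + x (I' j)) - (y (I j) + y (I' j))) < C := by
    refine (eventually_all_finset _).2 fun e he => (eventually_all_finset _).2 fun i _ =>
      (eventually_all_finset _).2 fun j _ => ?_
    exact (eventually_gt_atTop _).and ((eventually_gt_atTop _).and (eventually_gt_atTop _))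
  obtain ⟨C, hC1, hC2⟩ := (E3.and E4).exists
  -- the sets
  let pA : ℕ ⊕ (Σ _ : ℕ, ℕ) → Plane := Sum.elim (fun i => (ε * x i, ε * y i))
    (fun e => (-s e, C - s e ^ 2 / 2))
  let w : (Σ _ : ℕ, ℕ) × Bool → ℕ := fun z => if z.2 then z.1.1 else z.1.2
  let pX : ℕ ⊕ ((Σ _ : ℕ, ℕ) × Bool) → Plane := Sum.elim
    (fun j => (ε * (x (I j) + x (I' j)), ε * (y (I j) + y (I' j))))
    (fun z => (-s z.1 + ε * x (w z), C - s z.1 ^ 2 / 2 + ε * y (w z)))
  have hw : ∀ z : (Σ _ : ℕ, ℕ) × Bool, z.1 ∈ S → w z < m := by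
    rintro ⟨e, b⟩ he
    have := hlt e he
    cases b
    · show e.2 < m
      omega
    · show e.1 < m
      omega
  have hA := of_exposed ((range m).disjSum S) pA (by
    rintro (i | e) hi
    · rw [Finset.inl_mem_disjSum, Finset.mem_range] at hi
      refine ⟨-t i, 1, ?_⟩
      rintro (j | f) hj hne
      · rw [Finset.inl_mem_disjSum, Finset.mem_range] at hj
        have h1 := h.hA i hi j hj (fun h => hne (by rw [h]))
        have h2 := mul_lt_mul_of_pos_left h1 hε0
        simp only [pA, Sum.elim_inl]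
        linarith
      · rw [Finset.inr_mem_disjSum] at hj
        have h1 := (hC1 f hj i (Finset.mem_range.2 hi)).1
        simp only [pA, Sum.elim_inl, Sum.elim_inr]
        linarith
    · rw [Finset.inr_mem_disjSum] at hi
      refine ⟨s e, -1, ?_⟩
      rintro (j | f) hj hne
      · rw [Finset.inl_mem_disjSum] at hj
        have h1 := (hC1 e hi j hj).2
        simp only [pA, Sum.elim_inl, Sum.elim_inr]
        linarith
      · rw [Finset.inr_mem_disjSum] at hj
        have h1 := hsne e hi f hj (fun h => hne (by rw [h]))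
        have h2 : 0 < (s f - s e) ^ 2 := by positivity
        simp only [pA, Sum.elim_inr]
        linarith)
  have hX := of_exposed ((range N).disjSum (S ×ˢ (Finset.univ : Finset Bool))) pX (by
    rintro (i | ⟨e, b⟩) hi
    · rw [Finset.inl_mem_disjSum, Finset.mem_range] at hi
      refine ⟨-u i, 1, ?_⟩
      rintro (j | ⟨f, c⟩) hj hne
      · rw [Finset.inl_mem_disjSum, Finset.mem_range] at hj
        have h1 := h.hX i hi j hj (fun h => hne (by rw [h]))
        have h2 := mul_lt_mul_of_pos_left h1 hε0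
        simp only [pX, Sum.elim_inl]
        linarith
      · rw [Finset.inr_mem_disjSum, Finset.mem_product] at hj
        have h1 := (hC2 f hj.1 (w (f, c)) (Finset.mem_range.2 (hw _ hj.1)) i
          (Finset.mem_range.2 hi)).1
        simp only [pX, Sum.elim_inl, Sum.elim_inr]
        linarith
    · rw [Finset.inr_mem_disjSum, Finset.mem_product] at hi
      have hi1 : e ∈ S := hi.1
      have hwi := Finset.mem_range.2 (hw (e, b) hi.1)
      cases b with
      | true =>
        refine ⟨s e - δ, -1, ?_⟩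
        rintro (j | ⟨f, c⟩) hj hne
        · rw [Finset.inl_mem_disjSum] at hj
          have h1 := (hC2 e hi1 _ hwi j hj).2.1
          simp only [pX, Sum.elim_inl, Sum.elim_inr]
          linarith
        · rw [Finset.inr_mem_disjSum, Finset.mem_product] at hj
          by_cases hef : f = e
          · subst hef
            cases c with
            | true => exact absurd rfl hne
            | false =>
              have h1 := hx f hi1
              have h2 := hsy f hi1
              have h3 : 0 < ε * (δ * (x f.1 - x f.2)) := by positivity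
              have h4 : ε * (s f * (x f.1 - x f.2)) = ε * (y f.1 - y f.2) := by rw [h2]
              simp only [pX, Sum.elim_inr, w, if_true, Bool.false_eq_true, if_false]
              linarith
          · have h1 := (hε e hi1 f hj.1 _ hwi _ (Finset.mem_range.2 (hw (f, c) hj.1)) hef).1
            simp only [pX, Sum.elim_inr]
            linarith
      | false =>
        refine ⟨s e + δ, -1, ?_⟩
        rintro (j | ⟨f, c⟩) hj hne
        · rw [Finset.inl_mem_disjSum] at hj
          have h1 := (hC2 e hi1 _ hwi j hj).2.2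
          simp only [pX, Sum.elim_inl, Sum.elim_inr]
          linarith
        · rw [Finset.inr_mem_disjSum, Finset.mem_product] at hj
          by_cases hef : f = e
          · subst hef
            cases c with
            | false => exact absurd rfl hne
            | true =>
              have h1 := hx f hi1
              have h2 := hsy f hi1
              have h3 : 0 < ε * (δ * (x f.1 - x f.2)) := by positivity
              have h4 : ε * (s f * (x f.1 - x f.2)) = ε * (y f.1 - y f.2) := by rw [h2]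
              simp only [pX, Sum.elim_inr, w, if_true, Bool.false_eq_true, if_false]
              linarith
          · have h1 := (hε e hi1 f hj.1 _ hwi _ (Finset.mem_range.2 (hw (f, c) hj.1)) hef).2
            simp only [pX, Sum.elim_inr]
            linarith)
  refine ⟨_, _, hA.1.trans ?_, hA.2, hX.2, ?_, hX.1.trans ?_⟩
  · rw [Finset.card_disjSum, Finset.card_range, hSc]
  · intro z hz
    rw [Finset.mem_image] at hz
    obtain ⟨j | ⟨f, c⟩, hj, rfl⟩ := hz
    · rw [Finset.inl_mem_disjSum, Finset.mem_range] at hj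
      refine ⟨pA (Sum.inl (I j)), Finset.mem_image_of_mem _ (Finset.inl_mem_disjSum.2
        (Finset.mem_range.2 (h.hI j hj).1)), pA (Sum.inl (I' j)), Finset.mem_image_of_mem _
        (Finset.inl_mem_disjSum.2 (Finset.mem_range.2 (h.hI j hj).2)), ?_⟩
      simp only [pX, pA, Sum.elim_inl, Prod.mk_add_mk]
      rw [mul_add, mul_add]
    · rw [Finset.inr_mem_disjSum, Finset.mem_product] at hj
      refine ⟨pA (Sum.inr f), Finset.mem_image_of_mem _ (Finset.inr_mem_disjSum.2 hj.1),
        pA (Sum.inl (w (f, c))), Finset.mem_image_of_mem _ (Finset.inl_mem_disjSum.2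
        (Finset.mem_range.2 (hw (f, c) hj.1))), ?_⟩
      simp only [pX, pA, Sum.elim_inl, Sum.elim_inr, Prod.mk_add_mk]
  · rw [Finset.card_disjSum, Finset.card_range, Finset.card_product, hSc, Finset.card_univ,
      Fintype.card_bool, mul_comm]

/-- **Main theorem.** If `3 ≤ n ≤ 2 ^ (k - 1) * (2 ^ k - 1)` then there are a convexly independent
set `A` of `n` points of the plane and a convexly independent set `X ⊆ A + A` with at least
`2 n - k` points; hence the quantity `g n` of the problem is at least `2 n - k`. -/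
theorem result (n k : ℕ) (hn : 3 ≤ n) (hk : n ≤ 2 ^ (k - 1) * (2 ^ k - 1)) :
    (∃ A X : Finset Plane, A.card = n ∧ ConvexlyIndependent A ∧ ConvexlyIndependent X ∧
      (∀ x ∈ X, ∃ a ∈ A, ∃ b ∈ A, x = a + b) ∧ 2 * n - k ≤ X.card) ∧
    BddAbove (sizes n) ∧ 2 * n - k ≤ g n := by
  obtain ⟨-, hbdd, -⟩ := TwoNMinusLog.result n hn
  have main : ∃ A X : Finset Plane, A.card = n ∧ ConvexlyIndependent A ∧
      ConvexlyIndependent X ∧ (∀ x ∈ X, ∃ a ∈ A, ∃ b ∈ A, x = a + b) ∧ 2 * n - k ≤ X.card := by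
    obtain ⟨j, rfl⟩ : ∃ j, k = j + 1 := by
      rcases Nat.eq_zero_or_pos k with h | h
      · subst h
        simp at hk
        omega
      · exact ⟨k - 1, by omega⟩
    rw [Nat.add_sub_cancel] at hk
    obtain ⟨r, hr⟩ : ∃ r, 2 ^ j = r + 1 := ⟨2 ^ j - 1, by have := Nat.one_le_two_pow (n := j); omega⟩
    have hr2 : 2 ^ (j + 1) = 2 * r + 2 := by rw [pow_succ, hr]; ring
    have hjr : j ≤ r := by
      have := @Nat.lt_two_pow_self j
      omega
    by_cases hlt : n < 2 ^ (j + 1)
    · obtain ⟨⟨A, X, h1, h2, h3, h4, h5⟩, -⟩ := TwoNMinusLog.result n hn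
      refine ⟨A, X, h1, h2, h3, h4, ?_⟩
      have h6 : Nat.log 2 n < j + 1 := Nat.log_lt_of_lt_pow (by omega) hlt
      rw [h5]
      omega
    · obtain ⟨x, y, I, I', t, u, hG⟩ := exists_Gen (conf_pow j)
      have hc := card_chords (2 ^ (j + 1) - 1)
      rw [hr2] at hc hG hlt
      rw [hr, hr2] at hk
      have e1 : (r + 1) * (2 * r + 2 - 1) = (2 * r + 1) * r + (2 * r + 1) := by
        rw [show 2 * r + 2 - 1 = 2 * r + 1 by omega]
        ring
      have e2 : (2 * r + 2 - 1) * (2 * r + 2 - 1 - 1) = 2 * ((2 * r + 1) * r) := by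
        rw [show 2 * r + 2 - 1 - 1 = 2 * r by omega, show 2 * r + 2 - 1 = 2 * r + 1 by omega]
        ring
      rw [e2] at hc
      rw [e1] at hk
      obtain ⟨A, X, h1, h2, h3, h4, h5⟩ := construct (M := n - (2 * r + 1)) hG (by omega)
      refine ⟨A, X, by omega, h2, h3, h4, ?_⟩
      rw [h5]
      omega
  refine ⟨main, hbdd, ?_⟩
  obtain ⟨A, X, h1, h2, h3, h4, h5⟩ := main
  exact h5.trans (le_csSup hbdd ⟨A, X, h1, h2, h3, h4, rfl⟩)

end Pool.Agent.Results.MP_3fce03_co.ClusterArcH67
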